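import Pool.Agent.L7h89.MoserInf

/-!
# Moser's rectangle packing problem (MP_93723f_co, Q1): yes

Every finite or countably infinite family of rectangles with all sides at most `1` and total
area at most `1` packs into every square of area `2`.  The Euclidean plane is `ℂ`.
-/

set_option autoImplicit false

open Pool.Agent.L7h89.St

namespace Pool.Agent.Results.MP_93723f_co.AreaTwoSquare

/-- The rectangle `[0, p] × [0, q]`. -/
def box (p q : ℝ) : Set ℂ := {z | 0 ≤ z.re ∧ z.re ≤ p ∧ 0 ≤ z.im ∧ z.im ≤ q}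

/-- A rigid motion of the plane: a rotation followed by a translation. -/
def IsMotion (g : ℂ → ℂ) : Prop := ∃ c t : ℂ, ‖c‖ = 1 ∧ ∀ z, g z = c * z + t

/-- `R` is a closed rectangle with side lengths `p > 0` and `q > 0`, in any position. -/
def IsRectangle (R : Set ℂ) (p q : ℝ) : Prop :=
  0 < p ∧ 0 < q ∧ ∃ g : ℂ → ℂ, IsMotion g ∧ R = g '' box p q

/-- The family `R i` packs into `K`: rigid motions `g i` move the sets `R i` into `K` such that
their images have pairwise disjoint interiors. -/
def PacksInto {ι : Type} (R : ι → Set ℂ) (K : Set ℂ) : Prop :=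
  ∃ g : ι → ℂ → ℂ, (∀ i, IsMotion (g i) ∧ g i '' R i ⊆ K) ∧
    ∀ i j, i ≠ j → Disjoint (interior (g i '' R i)) (interior (g j '' R j))

theorem IsMotion.comp {f g : ℂ → ℂ} (hf : IsMotion f) (hg : IsMotion g) :
    IsMotion (fun z => f (g z)) := by
  obtain ⟨c, t, hc, h⟩ := hf
  obtain ⟨c', t', hc', h'⟩ := hg
  refine ⟨c * c', c * t' + t, by rw [norm_mul, hc, hc', mul_one], fun z => ?_⟩
  simp only [h, h']
  ring

theorem IsMotion.exists_inv {f : ℂ → ℂ} (hf : IsMotion f) :
    ∃ g : ℂ → ℂ, IsMotion g ∧ (∀ z, g (f z) = z) ∧ ∀ z, f (g z) = z := by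
  obtain ⟨c, t, hc, h⟩ := hf
  have hc0 : c ≠ 0 := by
    intro h0
    rw [h0, norm_zero] at hc
    exact zero_ne_one hc
  refine ⟨fun z => c⁻¹ * z + (- c⁻¹ * t), ⟨c⁻¹, - c⁻¹ * t, by rw [norm_inv, hc, inv_one],
    fun z => rfl⟩, fun z => ?_, fun z => ?_⟩
  · simp only [h]
    field_simp
    ring
  · simp only [h]
    field_simp
    ring

theorem IsMotion.interior_image {f : ℂ → ℂ} (hf : IsMotion f) (B : Set ℂ) :
    interior (f '' B) = f '' interior B := by
  obtain ⟨g, hg, h1, h2⟩ := hf.exists_inv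
  have cont : ∀ {k : ℂ → ℂ}, IsMotion k → Continuous k := by
    rintro k ⟨c, t, -, h⟩
    have : k = fun z => c * z + t := funext h
    rw [this]
    fun_prop
  let e : ℂ ≃ₜ ℂ :=
    { toFun := f, invFun := g, left_inv := h1, right_inv := h2,
      continuous_toFun := cont hf, continuous_invFun := cont hg }
  exact (e.image_interior B).symm

/-- The placed rectangle `[x, x + a] × [y, y + b]`. -/
def cell (x y a b : ℝ) : Set ℂ := {z | x ≤ z.re ∧ z.re ≤ x + a ∧ y ≤ z.im ∧ z.im ≤ y + b}

theorem cell_of_upright (x y p q : ℝ) :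
    ∃ h : ℂ → ℂ, IsMotion h ∧ h '' box p q = cell x y p q := by
  refine ⟨fun z => 1 * z + (⟨x, y⟩ : ℂ), ⟨1, ⟨x, y⟩, norm_one, fun z => rfl⟩, ?_⟩
  ext z
  constructor
  · rintro ⟨w, ⟨h1, h2, h3, h4⟩, rfl⟩
    simp only [cell, Set.mem_ofPred_eq, Complex.add_re, Complex.add_im, one_mul]
    exact ⟨by linarith, by linarith, by linarith, by linarith⟩
  · rintro ⟨h1, h2, h3, h4⟩
    refine ⟨⟨z.re - x, z.im - y⟩, ⟨by simp only; linarith, by simp only; linarith,
      by simp only; linarith, by simp only; linarith⟩, ?_⟩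
    apply Complex.ext <;> simp

theorem cell_of_turned (x y p q : ℝ) :
    ∃ h : ℂ → ℂ, IsMotion h ∧ h '' box p q = cell x y q p := by
  refine ⟨fun z => Complex.I * z + (⟨x + q, y⟩ : ℂ), ⟨Complex.I, ⟨x + q, y⟩, Complex.norm_I,
    fun z => rfl⟩, ?_⟩
  ext z
  constructor
  · rintro ⟨w, ⟨h1, h2, h3, h4⟩, rfl⟩
    simp only [cell, Set.mem_ofPred_eq, Complex.add_re, Complex.add_im, Complex.mul_re,
      Complex.mul_im, Complex.I_re, Complex.I_im]
    exact ⟨by linarith, by linarith, by linarith, by linarith⟩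
  · rintro ⟨h1, h2, h3, h4⟩
    refine ⟨⟨z.im - y, x + q - z.re⟩, ⟨by simp only; linarith, by simp only; linarith,
      by simp only; linarith, by simp only; linarith⟩, ?_⟩
    apply Complex.ext <;> simp

theorem interior_cell_disjoint {x y a b x' y' a' b' : ℝ}
    (h : x + a ≤ x' ∨ x' + a' ≤ x ∨ y + b ≤ y' ∨ y' + b' ≤ y) :
    Disjoint (interior (cell x y a b)) (interior (cell x' y' a' b')) := by
  have key : ∀ x y a b : ℝ, interior (cell x y a b) ⊆
      {z | x < z.re ∧ z.re < x + a ∧ y < z.im ∧ z.im < y + b} := by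
    intro x y a b z hz
    have s1 : cell x y a b ⊆ {w : ℂ | x ≤ w.re} := fun w hw => hw.1
    have s2 : cell x y a b ⊆ {w : ℂ | w.re ≤ x + a} := fun w hw => hw.2.1
    have s3 : cell x y a b ⊆ {w : ℂ | y ≤ w.im} := fun w hw => hw.2.2.1
    have s4 : cell x y a b ⊆ {w : ℂ | w.im ≤ y + b} := fun w hw => hw.2.2.2
    have h1 : z ∈ interior {w : ℂ | x ≤ w.re} := interior_mono s1 hz
    have h2 : z ∈ interior {w : ℂ | w.re ≤ x + a} := interior_mono s2 hz
    have h3 : z ∈ interior {w : ℂ | y ≤ w.im} := interior_mono s3 hz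
    have h4 : z ∈ interior {w : ℂ | w.im ≤ y + b} := interior_mono s4 hz
    rw [Complex.interior_setOfPred_le_re] at h1
    rw [Complex.interior_setOfPred_re_le] at h2
    rw [Complex.interior_setOfPred_le_im] at h3
    rw [Complex.interior_setOfPred_im_le] at h4
    exact ⟨h1, h2, h3, h4⟩
  rw [Set.disjoint_left]
  intro z hz hz'
  obtain ⟨h1, h2, h3, h4⟩ := key _ _ _ _ hz
  obtain ⟨k1, k2, k3, k4⟩ := key _ _ _ _ hz'
  rcases h with h | h | h | h <;> linarith

/-- **Moser's problem (1966).** Let `R i` be finitely or countably many rectangles with side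
lengths `p i, q i ≤ 1` and total area at most `1`.  Then the family packs into every closed
square of side `√2`. -/
theorem result {ι : Type} [Countable ι] (R : ι → Set ℂ) (p q : ι → ℝ)
    (hR : ∀ i, IsRectangle (R i) (p i) (q i)) (hside : ∀ i, p i ≤ 1 ∧ q i ≤ 1)
    (hsum : Summable fun i => p i * q i) (harea : ∑' i, p i * q i ≤ 1)
    (Q : Set ℂ) (hQ : IsRectangle Q (√2) (√2)) : PacksInto R Q := by
  have hr : √2 * √2 = (2 : ℝ) := Real.mul_self_sqrt (by norm_num)
  have hr1 : (1.414 : ℝ) < √2 := by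
    rw [show (1.414 : ℝ) = √(1.414 ^ 2) by rw [Real.sqrt_sq (by norm_num)]]
    exact Real.sqrt_lt_sqrt (by norm_num) (by norm_num)
  have hr2 : √2 < (1.4143 : ℝ) := by
    rw [Real.sqrt_lt' (by norm_num)]
    norm_num
  have hpos : ∀ i, 0 < p i * q i := fun i => mul_pos (hR i).1 (hR i).2.1
  have hmm : ∀ i, max (p i) (q i) * min (p i) (q i) = p i * q i := fun i => max_mul_min _ _
  obtain ⟨o, x, y, h1, h2⟩ := moser_infinite hr hr1 hr2 (ι := ι)
    (p := fun i => max (p i) (q i)) (q := fun i => min (p i) (q i))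
    (fun i => ⟨lt_min (hR i).1 (hR i).2.1, min_le_max, max_le (hside i).1 (hside i).2⟩)
    (fun s => by
      simp only [hmm]
      exact (hsum.sum_le_tsum s (fun i _ => (hpos i).le)).trans harea)
  have hcell : ∀ i, ∃ h : ℂ → ℂ, IsMotion h ∧ h '' box (p i) (q i) =
      cell (x i) (y i) (wid (fun i => max (p i) (q i)) (fun i => min (p i) (q i)) i (o i))
        (hei (fun i => max (p i) (q i)) (fun i => min (p i) (q i)) i (o i)) := by
    intro i
    rcases le_total (p i) (q i) with hle | hle <;> cases o i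
    · simp only [wid, hei, Bool.false_eq_true, if_false, max_eq_right hle, min_eq_left hle]
      exact cell_of_upright _ _ _ _
    · simp only [wid, hei, if_true, max_eq_right hle, min_eq_left hle]
      exact cell_of_turned _ _ _ _
    · simp only [wid, hei, Bool.false_eq_true, if_false, max_eq_left hle, min_eq_right hle]
      exact cell_of_turned _ _ _ _
    · simp only [wid, hei, if_true, max_eq_left hle, min_eq_right hle]
      exact cell_of_upright _ _ _ _
  choose h hh hhc using hcell
  choose f hf hfR using fun i => (hR i).2.2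
  choose g hg hg1 hg2 using fun i => (hf i).exists_inv
  obtain ⟨-, -, F, hF, hFQ⟩ := hQ
  have himg : ∀ i, (fun z => F (h i (g i z))) '' R i = F '' cell (x i) (y i)
      (wid (fun i => max (p i) (q i)) (fun i => min (p i) (q i)) i (o i))
      (hei (fun i => max (p i) (q i)) (fun i => min (p i) (q i)) i (o i)) := by
    intro i
    rw [hfR i, Set.image_image, ← hhc i, Set.image_image]
    refine Set.image_congr fun z _ => ?_
    simp only [hg1 i]
  refine ⟨fun i z => F (h i (g i z)), fun i => ⟨hF.comp ((hh i).comp (hg i)), ?_⟩,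
    fun i j hij => ?_⟩
  · rw [himg i, hFQ]
    refine Set.image_mono ?_
    rintro z ⟨z1, z2, z3, z4⟩
    obtain ⟨k1, k2, k3, k4⟩ := h1 i
    exact ⟨by linarith, by linarith, by linarith, by linarith⟩
  · rw [himg i, himg j, hF.interior_image, hF.interior_image]
    obtain ⟨G, -, hG1, -⟩ := hF.exists_inv
    have hinj : Function.Injective F := fun z w hzw => by
      rw [← hG1 z, hzw, hG1 w]
    rw [Set.disjoint_image_iff hinj]
    exact interior_cell_disjoint (h2 i j hij)

end Pool.Agent.Results.MP_93723f_co.AreaTwoSquare
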